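import Pool.Agent.Q155.AGL.Transfer

set_option autoImplicit false

namespace Pool.Agent.Results.MP_3242d6_co.PowerOfTwo

open Q155.AGL

/-- In characteristic two, in the range `3 ≤ k ≤ q / 2`, `k ≡ 0` or `|H|` modulo `d |H|`, the count
`N(S_{d,H}, k)` vanishes only if `k` is a power of two. -/
theorem result {F : Type*} [Field F] [Finite F] (α : ℕ) (hq : Nat.card F = 2 ^ α) (d : ℕ)
    (hd : d ∣ 2 ^ α - 1) (H : AddSubgroup F)
    (hH : ∀ u : F, u ^ d = 1 → ∀ h ∈ H, u * h ∈ H) (k : ℕ) (hk : 3 ≤ k)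
    (hkF : 2 * k ≤ 2 ^ α)
    (hmod : k ≡ 0 [MOD d * Nat.card H] ∨ k ≡ Nat.card H [MOD d * Nat.card H])
    (hN : exactCount d H k = 0) : ∃ n : ℕ, k = 2 ^ n := by
  have hp : Fact (Nat.Prime 2) := ⟨Nat.prime_two⟩
  have hchar : CharP F 2 := by
    obtain ⟨p, hpF⟩ := CharP.exists F
    have hpp : p.Prime := CharP.char_is_prime F p
    have : Fact p.Prime := ⟨hpp⟩
    obtain ⟨n, hn⟩ := card_pow (V := F) p (by
      intro v
      rw [nsmul_eq_mul, CharP.cast_eq_zero, zero_mul])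
    have h1 : p ∣ 2 ^ α := by
      rw [← hq, hn]
      apply dvd_pow_self
      rintro rfl
      have := Finite.one_lt_card (α := F)
      rw [hn, pow_zero] at this
      omega
    have h2 : p = 2 := (Nat.prime_dvd_prime_iff_eq hpp Nat.prime_two).1
      (hpp.dvd_of_dvd_pow h1)
    rwa [h2] at hpF
  obtain ⟨n, hn⟩ := card_pow_of_addSubgroup (V := F) 2 (by
    intro v
    rw [nsmul_eq_mul, CharP.cast_eq_zero, zero_mul]) H
  rw [classification 2 d (by rw [hq]; exact hd) H hH k (by omega) (by rw [hq]; exact hkF) hmod]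
    at hN
  rcases hN with ⟨h, -⟩ | ⟨h, -⟩ | ⟨h, β, hβ⟩ | ⟨-, h, -⟩
  · exact ⟨n, by rw [h, hn]⟩
  · exact ⟨n + 1, by rw [h, hn, pow_succ, mul_comm]⟩
  · exact ⟨β + n, by rw [h, hn, hβ, pow_add]⟩
  · exfalso
    rw [hq] at h
    have h7 : 7 ∣ 2 ^ α := ⟨_, h⟩
    have h72 : Nat.Prime 7 := by norm_num
    have := (Nat.prime_dvd_prime_iff_eq h72 Nat.prime_two).1 (h72.dvd_of_dvd_pow h7)
    omega

end Pool.Agent.Results.MP_3242d6_co.PowerOfTwo
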